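import Mathlib
import Pool.Agent.H447R2.MZ.Tup

/-!
# Words `p u`: the weights of the values of the harmonic sum of `u`
-/

set_option autoImplicit false

namespace Pool.Agent.Q217.TT

open Pool.Agent.H447R2.MZ (H H_nil H_cons H_cons_zero H_cons_succ H_nonneg)

/-- `ep [s_1, ..., s_a] M N` is the sum of `∏ n_i ^ (- s_i)` over `N ≥ n_1 > ... > n_a > M` -/
noncomputable def ep : List ℕ → ℕ → ℕ → ℝ
  | [], _, _ => 1
  | s :: p, M, N => ∑ n ∈ Finset.Ico M N, (((n + 1 : ℕ) : ℝ) ^ s)⁻¹ * ep p M n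

lemma ep_nil (M N : ℕ) : ep [] M N = 1 := by rw [ep]

lemma ep_self (s : ℕ) (p : List ℕ) (M : ℕ) : ep (s :: p) M M = 0 := by rw [ep]; simp

lemma ep_nonneg (p : List ℕ) (M N : ℕ) : 0 ≤ ep p M N := by
  induction p generalizing N with
  | nil => rw [ep_nil]; exact zero_le_one
  | cons s p ih =>
    rw [ep]
    exact Finset.sum_nonneg fun n _ => mul_nonneg (by positivity) (ih n)

lemma ep_succ (s : ℕ) (p : List ℕ) {M N : ℕ} (h : M ≤ N) :
    ep (s :: p) M (N + 1) = ep (s :: p) M N + (((N + 1 : ℕ) : ℝ) ^ s)⁻¹ * ep p M N := by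
  rw [ep, Finset.sum_Ico_succ_top h, ← ep]

lemma ep_left (p : List ℕ) (s : ℕ) {M N : ℕ} (h : M + 1 ≤ N) :
    ep (p ++ [s]) M N = ep (p ++ [s]) (M + 1) N + (((M + 1 : ℕ) : ℝ) ^ s)⁻¹ * ep p (M + 1) N := by
  induction N, h using Nat.le_induction generalizing p with
  | base =>
    cases p with
    | nil => rw [List.nil_append, ep_succ s [] le_rfl, ep_self, ep_self, ep_nil, ep_nil]
    | cons t p =>
      rw [List.cons_append, ep_succ t _ le_rfl, ep_self, ep_self, ep_self]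
      cases p with
      | nil => rw [List.nil_append, ep_self, mul_zero, mul_zero]
      | cons t' p => rw [List.cons_append, ep_self, mul_zero, mul_zero]
  | succ N hN ih =>
    cases p with
    | nil =>
      have h1 := ih []
      rw [List.nil_append, ep_nil] at h1
      rw [List.nil_append, ep_succ s [] (by omega : M ≤ N), ep_succ s [] hN, h1, ep_nil, ep_nil, ep_nil]
      ring
    | cons t p =>
      have h1 := ih (t :: p)
      rw [List.cons_append] at h1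
      rw [List.cons_append, ep_succ t _ (by omega : M ≤ N), ep_succ t _ hN, ep_succ t _ hN, h1, ih p]
      ring

/-- comparison of two letters -/
lemma two_letters {X y : ℝ} (hy : 0 < y) (hyX : y ≤ X) {t : ℕ} (ht : 2 ≤ t) :
    (X ^ t)⁻¹ * (y ^ 2)⁻¹ ≤ (X ^ 2)⁻¹ * (y ^ t)⁻¹ := by
  obtain ⟨t', rfl⟩ : ∃ t', t = t' + 2 := ⟨t - 2, by omega⟩
  have hX : 0 < X := lt_of_lt_of_le hy hyX
  rw [← mul_inv, ← mul_inv]
  apply inv_anti₀ (by positivity)
  have h1 : y ^ t' ≤ X ^ t' := pow_le_pow_left₀ hy.le hyX _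
  calc X ^ 2 * y ^ (t' + 2) = y ^ t' * (X ^ 2 * y ^ 2) := by ring
    _ ≤ X ^ t' * (X ^ 2 * y ^ 2) := mul_le_mul_of_nonneg_right h1 (by positivity)
    _ = X ^ (t' + 2) * y ^ 2 := by ring

lemma small_letter {z y : ℝ} (hz : 0 < z) (hzy : z ≤ y) {s : ℕ} (hs : 2 ≤ s) :
    z ^ (s - 2) * (y ^ s)⁻¹ ≤ (y ^ 2)⁻¹ := by
  obtain ⟨s', rfl⟩ : ∃ s', s = s' + 2 := ⟨s - 2, by omega⟩
  have hy : 0 < y := lt_of_lt_of_le hz hzy
  rw [Nat.add_sub_cancel, pow_add, mul_inv, ← mul_assoc]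
  refine mul_le_of_le_one_left (by positivity) ?_
  rw [← div_eq_mul_inv, div_le_one (by positivity)]
  exact pow_le_pow_left₀ hz.le hzy _

/-- moving the letters by one place -/
lemma shift (s : ℕ) (hs : 2 ≤ s) (M : ℕ) : ∀ (r : List ℕ), (∀ x ∈ r, 2 ≤ x) → ∀ (t X N : ℕ), 2 ≤ t → N ≤ X →
    ((X : ℝ) ^ t)⁻¹ * (((M + 1 : ℕ) : ℝ) ^ (s - 2) * ep (r ++ [s]) M N) ≤
      ((X : ℝ) ^ 2)⁻¹ * ep (t :: r) M N := by
  intro r
  induction r with
  | nil =>
    intro _ t X N ht hX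
    rw [List.nil_append, ep, ep, Finset.mul_sum, Finset.mul_sum, Finset.mul_sum]
    refine Finset.sum_le_sum fun n hn => ?_
    obtain ⟨hn1, hn2⟩ := Finset.mem_Ico.1 hn
    rw [ep_nil, mul_one, mul_one]
    have h1 : (0 : ℝ) < ((M + 1 : ℕ) : ℝ) := by positivity
    have h2 : ((M + 1 : ℕ) : ℝ) ≤ ((n + 1 : ℕ) : ℝ) := by exact_mod_cast (by omega : M + 1 ≤ n + 1)
    have h3 : ((n + 1 : ℕ) : ℝ) ≤ (X : ℝ) := by exact_mod_cast (by omega : n + 1 ≤ X)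
    have h4 : (0 : ℝ) < ((n + 1 : ℕ) : ℝ) := by positivity
    exact (mul_le_mul_of_nonneg_left (small_letter h1 h2 hs) (by positivity)).trans (two_letters h4 h3 ht)
  | cons t1 r ih =>
    intro hr t X N ht hX
    rw [List.cons_append, ep, ep, Finset.mul_sum, Finset.mul_sum, Finset.mul_sum]
    refine Finset.sum_le_sum fun n hn => ?_
    obtain ⟨hn1, hn2⟩ := Finset.mem_Ico.1 hn
    have h1 := ih (fun x hx => hr x (List.mem_cons_of_mem _ hx)) t1 (n + 1) n (hr t1 List.mem_cons_self)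
      (Nat.le_succ n)
    have h3 : ((n + 1 : ℕ) : ℝ) ≤ (X : ℝ) := by exact_mod_cast (by omega : n + 1 ≤ X)
    have h4 : (0 : ℝ) < ((n + 1 : ℕ) : ℝ) := by positivity
    have h5 := two_letters h4 h3 ht
    calc ((X : ℝ) ^ t)⁻¹ * (((M + 1 : ℕ) : ℝ) ^ (s - 2) * ((((n + 1 : ℕ) : ℝ) ^ t1)⁻¹ * ep (r ++ [s]) M n))
        = ((X : ℝ) ^ t)⁻¹ * ((((n + 1 : ℕ) : ℝ) ^ t1)⁻¹ * (((M + 1 : ℕ) : ℝ) ^ (s - 2) * ep (r ++ [s]) M n)) := by
          ring
      _ ≤ ((X : ℝ) ^ t)⁻¹ * ((((n + 1 : ℕ) : ℝ) ^ 2)⁻¹ * ep (t1 :: r) M n) :=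
          mul_le_mul_of_nonneg_left h1 (by positivity)
      _ = ((X : ℝ) ^ t)⁻¹ * (((n + 1 : ℕ) : ℝ) ^ 2)⁻¹ * ep (t1 :: r) M n := by ring
      _ ≤ ((X : ℝ) ^ 2)⁻¹ * (((n + 1 : ℕ) : ℝ) ^ t)⁻¹ * ep (t1 :: r) M n :=
          mul_le_mul_of_nonneg_right h5 (ep_nonneg _ _ _)
      _ = ((X : ℝ) ^ 2)⁻¹ * ((((n + 1 : ℕ) : ℝ) ^ t)⁻¹ * ep (t1 :: r) M n) := by ring

/-- Newton's inequality for words -/
lemma newton (s : ℕ) (hs : 2 ≤ s) {M N : ℕ} (h : M ≤ N) : ∀ p : List ℕ, (∀ x ∈ p, 2 ≤ x) →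
    ((p.length : ℝ) + 1) * (((M + 1 : ℕ) : ℝ) ^ (s - 2) * ep (p ++ [s]) M N) ≤ ep [2] M N * ep p M N := by
  induction N, h using Nat.le_induction with
  | base =>
    intro p _
    rw [ep_self, zero_mul]
    cases p with
    | nil => rw [List.nil_append, ep_self, mul_zero, mul_zero]
    | cons t p => rw [List.cons_append, ep_self, mul_zero, mul_zero]
  | succ N hN ih =>
    intro p hp
    cases p with
    | nil =>
      rw [List.nil_append, ep_nil, mul_one, ep, ep, Finset.mul_sum, List.length_nil, Nat.cast_zero, zero_add,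
        one_mul]
      refine Finset.sum_le_sum fun n hn => ?_
      obtain ⟨hn1, hn2⟩ := Finset.mem_Ico.1 hn
      rw [ep_nil, mul_one, mul_one]
      exact small_letter (by positivity) (by exact_mod_cast (by omega : M + 1 ≤ n + 1)) hs
    | cons t p =>
      have ht : 2 ≤ t := hp t List.mem_cons_self
      have hp' : ∀ x ∈ p, 2 ≤ x := fun x hx => hp x (List.mem_cons_of_mem _ hx)
      have h1 := ih (t :: p) hp
      have h2 := ih p hp'
      have h3 := shift s hs M p hp' t (N + 1) N ht (Nat.le_succ N)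
      have hP := ep_nonneg (t :: p) M N
      have hQ := ep_nonneg p M N
      have hx : (0 : ℝ) ≤ (((N + 1 : ℕ) : ℝ) ^ t)⁻¹ := by positivity
      have hx2 : (0 : ℝ) ≤ (((N + 1 : ℕ) : ℝ) ^ 2)⁻¹ := by positivity
      rw [List.cons_append] at h1
      rw [List.cons_append, ep_succ t _ hN, ep_succ t _ hN, ep_succ 2 _ hN, ep_nil, mul_one]
      rw [List.length_cons] at h1 ⊢
      push_cast at h1 ⊢
      push_cast at h2 h3 hx hx2
      generalize (((N : ℝ) + 1) ^ t)⁻¹ = x at hx h3 ⊢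
      generalize (((N : ℝ) + 1) ^ 2)⁻¹ = y at hx2 h3 ⊢
      generalize ((M : ℝ) + 1) ^ (s - 2) = z at h1 h2 h3 ⊢
      have h4 := mul_le_mul_of_nonneg_left h2 hx
      have h5 := mul_nonneg (mul_nonneg hx2 hx) hQ
      nlinarith [h1, h3, h4, h5]

lemma ep_two_le {M N : ℕ} (hM : 1 ≤ M) (h : M ≤ N) : ep [2] M N ≤ 1 / (M : ℝ) - 1 / (N : ℝ) := by
  induction N, h using Nat.le_induction with
  | base => rw [ep_self, sub_self]
  | succ N hN ih =>
    rw [ep_succ 2 _ hN, ep_nil, mul_one]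
    have hN0 : (0 : ℝ) < N := by exact_mod_cast (by omega : 0 < N)
    have h2 : (((N + 1 : ℕ) : ℝ) ^ 2)⁻¹ ≤ 1 / (N : ℝ) - 1 / ((N + 1 : ℕ) : ℝ) := by
      push_cast
      rw [div_sub_div _ _ hN0.ne' (by positivity), inv_eq_one_div,
        div_le_div_iff₀ (by positivity) (by positivity)]
      nlinarith
    linarith

lemma ep_two_le' {M N : ℕ} (hM : 1 ≤ M) (h : M ≤ N) : ep [2] M N ≤ 1 / (M : ℝ) := by
  have h1 := ep_two_le hM h
  have h2 : (0 : ℝ) ≤ 1 / (N : ℝ) := by positivity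
  linarith

lemma ep_anti (p : List ℕ) {M M' : ℕ} (h : M ≤ M') : ∀ {N : ℕ}, M' ≤ N → ep p M' N ≤ ep p M N := by
  induction p with
  | nil => intro N _; rw [ep_nil, ep_nil]
  | cons s p ih =>
    intro N hN
    rw [ep, ep]
    refine le_trans (Finset.sum_le_sum fun n hn => ?_) (Finset.sum_le_sum_of_subset_of_nonneg
      (Finset.Ico_subset_Ico_left h) fun n _ _ => mul_nonneg (by positivity) (ep_nonneg _ _ _))
    exact mul_le_mul_of_nonneg_left (ih (Finset.mem_Ico.1 hn).1) (by positivity)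

/-- the weight of the next value is smaller, by the factor `p.length` -/
lemma ep_step (p : List ℕ) (hp : ∀ x ∈ p, 2 ≤ x) {M N : ℕ} (h : M + 1 ≤ N) :
    (p.length : ℝ) * ep p (M + 1) N ≤ ((M : ℝ) + 1) * ep p M N := by
  rcases List.eq_nil_or_concat p with rfl | ⟨q, s, rfl⟩
  · rw [ep_nil, ep_nil]
    simp only [List.length_nil, Nat.cast_zero, mul_one]
    positivity
  · rw [List.concat_eq_append] at hp ⊢
    have hs : 2 ≤ s := hp s (by simp)
    have hq : ∀ x ∈ q, 2 ≤ x := fun x hx => hp x (by simp [hx])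
    have h1 := newton s hs h q hq
    have h2 := ep_two_le' (by omega : 1 ≤ M + 1) h
    have h3 := mul_le_mul_of_nonneg_right h2 (ep_nonneg q (M + 1) N)
    have h4 := ep_left q s h
    have h5 := ep_nonneg (q ++ [s]) (M + 1) N
    have hM : (0 : ℝ) < (M : ℝ) + 1 := by positivity
    have h6 : (((M : ℝ) + 1) ^ s)⁻¹ * ep q (M + 1) N ≤ ep (q ++ [s]) M N := by
      rw [h4]
      push_cast
      linarith
    have h7 : ep q (M + 1) N ≤ ((M : ℝ) + 1) ^ s * ep (q ++ [s]) M N := by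
      rw [inv_mul_le_iff₀ (by positivity)] at h6
      exact h6
    obtain ⟨s', rfl⟩ : ∃ s', s = s' + 2 := ⟨s - 2, by omega⟩
    rw [Nat.add_sub_cancel] at h1
    rw [List.length_append, List.length_singleton]
    push_cast at h1 h3 ⊢
    have h8 : ((M : ℝ) + 1) ^ s' ≤ ((M : ℝ) + 1 + 1) ^ s' := pow_le_pow_left₀ hM.le (by linarith) _
    have h9 : 0 ≤ ((q.length : ℝ) + 1) * ep (q ++ [s' + 2]) (M + 1) N := mul_nonneg (by positivity) h5
    have h10 : ((M : ℝ) + 1) ^ s' * (((q.length : ℝ) + 1) * ep (q ++ [s' + 2]) (M + 1) N) ≤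
        ((M : ℝ) + 1) ^ s' * (((M : ℝ) + 1) * ep (q ++ [s' + 2]) M N) := by
      calc ((M : ℝ) + 1) ^ s' * (((q.length : ℝ) + 1) * ep (q ++ [s' + 2]) (M + 1) N)
          ≤ ((M : ℝ) + 1 + 1) ^ s' * (((q.length : ℝ) + 1) * ep (q ++ [s' + 2]) (M + 1) N) :=
            mul_le_mul_of_nonneg_right h8 h9
        _ = ((q.length : ℝ) + 1) * (((M : ℝ) + 1 + 1) ^ s' * ep (q ++ [s' + 2]) (M + 1) N) := by ring
        _ ≤ 1 / ((M : ℝ) + 1) * ep q (M + 1) N := h1.trans h3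
        _ ≤ 1 / ((M : ℝ) + 1) * (((M : ℝ) + 1) ^ (s' + 2) * ep (q ++ [s' + 2]) M N) :=
            mul_le_mul_of_nonneg_left h7 (by positivity)
        _ = ((M : ℝ) + 1) ^ s' * (((M : ℝ) + 1) * ep (q ++ [s' + 2]) M N) := by
            field_simp
            ring
    exact le_of_mul_le_mul_left h10 (by positivity)

lemma ep_mono {p : List ℕ} {M N N' : ℕ} (h : M ≤ N) (h' : N ≤ N') : ep p M N ≤ ep p M N' := by
  cases p with
  | nil => rw [ep_nil, ep_nil]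
  | cons s p =>
    induction N', h' using Nat.le_induction with
    | base => exact le_rfl
    | succ N' hN ih =>
      rw [ep_succ s p (h.trans hN)]
      have := mul_nonneg (by positivity : (0 : ℝ) ≤ (((N' + 1 : ℕ) : ℝ) ^ s)⁻¹) (ep_nonneg p M N')
      linarith

lemma ep_pos (p : List ℕ) (M : ℕ) : 0 < ep p M (M + p.length) := by
  induction p with
  | nil => rw [ep_nil]; exact one_pos
  | cons s p ih =>
    rw [List.length_cons, ← add_assoc, ep_succ s p (by omega : M ≤ M + p.length)]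
    have h1 := ep_nonneg (s :: p) M (M + p.length)
    have h2 : (0 : ℝ) < (((M + p.length + 1 : ℕ) : ℝ) ^ s)⁻¹ * ep p M (M + p.length) :=
      mul_pos (by positivity) ih
    linarith

/-- the harmonic sum of `p s u` -/
lemma H_app (u : List ℕ) (s : ℕ) (p : List ℕ) (N : ℕ) : H (p ++ s :: u) N =
    ∑ n ∈ Finset.range N, H u n * (((n + 1 : ℕ) : ℝ) ^ s)⁻¹ * ep p (n + 1) N := by
  induction p generalizing N with
  | nil =>
    rw [List.nil_append, H_cons]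
    refine Finset.sum_congr rfl fun n _ => ?_
    rw [ep_nil]
    ring
  | cons t p ih =>
    rw [List.cons_append]
    induction N with
    | zero => rw [H_cons_zero]; simp
    | succ N ihN =>
      rw [H_cons_succ, ihN, ih N, Finset.sum_range_succ, ep_self, mul_zero, add_zero, Finset.mul_sum,
        ← Finset.sum_add_distrib]
      refine Finset.sum_congr rfl fun n hn => ?_
      rw [ep_succ t p (by have := Finset.mem_range.1 hn; omega : n + 1 ≤ N)]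
      ring

/-- the first nonzero value dominates -/
lemma lower (f g : ℕ → ℝ) (n0 : ℕ) (p : List ℕ) (hp : ∀ x ∈ p, 2 ≤ x) (s : ℕ) (hs : 2 ≤ s) (N : ℕ)
    (ha : 1 ≤ p.length) (hN : n0 + 1 ≤ N) (h0 : ∀ n < n0, f n = 0)
    (hfg : ∀ n, |f n| ≤ g n) {Z : ℝ} (hZ : ∀ N, ∑ n ∈ Finset.range N, g n * (((n + 1 : ℕ) : ℝ) ^ 2)⁻¹ ≤ Z) :
    ep p (n0 + 1) N * ((((n0 + 1 : ℕ) : ℝ) ^ (s - 2))⁻¹ *
      (|f n0| * (((n0 + 1 : ℕ) : ℝ) ^ 2)⁻¹ - ((n0 : ℝ) + 2) / p.length * Z)) ≤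
      |∑ n ∈ Finset.range N, f n * (((n + 1 : ℕ) : ℝ) ^ s)⁻¹ * ep p (n + 1) N| := by
  obtain ⟨s', rfl⟩ : ∃ s', s = s' + 2 := ⟨s - 2, by omega⟩
  rw [Nat.add_sub_cancel]
  have hsplit : ∑ n ∈ Finset.range N, f n * (((n + 1 : ℕ) : ℝ) ^ (s' + 2))⁻¹ * ep p (n + 1) N =
      f n0 * (((n0 + 1 : ℕ) : ℝ) ^ (s' + 2))⁻¹ * ep p (n0 + 1) N +
        ∑ n ∈ Finset.Ico (n0 + 1) N, f n * (((n + 1 : ℕ) : ℝ) ^ (s' + 2))⁻¹ * ep p (n + 1) N := by
    rw [← Finset.sum_range_add_sum_Ico _ hN, Finset.sum_range_succ,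
      Finset.sum_eq_zero (s := Finset.range n0) fun n hn => by
        rw [h0 n (Finset.mem_range.1 hn), zero_mul, zero_mul], zero_add]
  have ha' : (0 : ℝ) < p.length := by exact_mod_cast ha
  have hrest : |∑ n ∈ Finset.Ico (n0 + 1) N, f n * (((n + 1 : ℕ) : ℝ) ^ (s' + 2))⁻¹ * ep p (n + 1) N| ≤
      (((n0 + 1 : ℕ) : ℝ) ^ s')⁻¹ * (((n0 : ℝ) + 2) / p.length * Z * ep p (n0 + 1) N) := by
    refine (Finset.abs_sum_le_sum_abs _ _).trans ?_
    have h1 : ∀ n ∈ Finset.Ico (n0 + 1) N, |f n * (((n + 1 : ℕ) : ℝ) ^ (s' + 2))⁻¹ * ep p (n + 1) N| ≤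
        g n * (((n + 1 : ℕ) : ℝ) ^ 2)⁻¹ * ((((n0 + 1 : ℕ) : ℝ) ^ s')⁻¹ *
          (((n0 : ℝ) + 2) / p.length * ep p (n0 + 1) N)) := by
      intro n hn
      obtain ⟨hn1, hn2⟩ := Finset.mem_Ico.1 hn
      rw [abs_mul, abs_mul, abs_of_nonneg (ep_nonneg p (n + 1) N),
        abs_of_nonneg (by positivity : (0 : ℝ) ≤ (((n + 1 : ℕ) : ℝ) ^ (s' + 2))⁻¹)]
      have h2 : ep p (n + 1) N ≤ ep p (n0 + 1 + 1) N := ep_anti p (by omega) (by omega)
      have h3 := ep_step p hp (by omega : n0 + 1 + 1 ≤ N)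
      have h4 : ep p (n + 1) N ≤ ((n0 : ℝ) + 2) / p.length * ep p (n0 + 1) N := by
        refine h2.trans ?_
        rw [div_mul_eq_mul_div, le_div_iff₀ ha', mul_comm]
        refine h3.trans (le_of_eq ?_)
        push_cast
        ring
      have hg : 0 ≤ g n := (abs_nonneg _).trans (hfg n)
      have h5 : (((n + 1 : ℕ) : ℝ) ^ (s' + 2))⁻¹ ≤
          (((n + 1 : ℕ) : ℝ) ^ 2)⁻¹ * (((n0 + 1 : ℕ) : ℝ) ^ s')⁻¹ := by
        rw [← mul_inv]
        apply inv_anti₀ (by positivity)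
        rw [pow_add, mul_comm]
        apply mul_le_mul_of_nonneg_right _ (by positivity)
        apply pow_le_pow_left₀ (by positivity)
        exact_mod_cast (by omega : n0 + 1 ≤ n + 1)
      calc |f n| * (((n + 1 : ℕ) : ℝ) ^ (s' + 2))⁻¹ * ep p (n + 1) N
          ≤ (g n * ((((n + 1 : ℕ) : ℝ) ^ 2)⁻¹ * (((n0 + 1 : ℕ) : ℝ) ^ s')⁻¹)) *
              (((n0 : ℝ) + 2) / p.length * ep p (n0 + 1) N) :=
            mul_le_mul (mul_le_mul (hfg n) h5 (by positivity) hg) h4 (ep_nonneg _ _ _)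
              (mul_nonneg hg (by positivity))
        _ = _ := by ring
    refine (Finset.sum_le_sum h1).trans ?_
    rw [← Finset.sum_mul]
    have h5 : ∑ n ∈ Finset.Ico (n0 + 1) N, g n * (((n + 1 : ℕ) : ℝ) ^ 2)⁻¹ ≤ Z := by
      refine le_trans ?_ (hZ N)
      refine Finset.sum_le_sum_of_subset_of_nonneg ?_ ?_
      · intro n hn
        exact Finset.mem_range.2 (Finset.mem_Ico.1 hn).2
      · intro n _ _
        exact mul_nonneg ((abs_nonneg _).trans (hfg n)) (by positivity)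
    have h6 : 0 ≤ (((n0 + 1 : ℕ) : ℝ) ^ s')⁻¹ * (((n0 : ℝ) + 2) / p.length * ep p (n0 + 1) N) :=
      mul_nonneg (by positivity) (mul_nonneg (by positivity) (ep_nonneg _ _ _))
    refine (mul_le_mul_of_nonneg_right h5 h6).trans (le_of_eq ?_)
    ring
  rw [hsplit]
  have h7 := abs_add_le (f n0 * (((n0 + 1 : ℕ) : ℝ) ^ (s' + 2))⁻¹ * ep p (n0 + 1) N +
    ∑ n ∈ Finset.Ico (n0 + 1) N, f n * (((n + 1 : ℕ) : ℝ) ^ (s' + 2))⁻¹ * ep p (n + 1) N)
    (-∑ n ∈ Finset.Ico (n0 + 1) N, f n * (((n + 1 : ℕ) : ℝ) ^ (s' + 2))⁻¹ * ep p (n + 1) N)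
  rw [add_neg_cancel_right, abs_neg] at h7
  have h8 : |f n0 * (((n0 + 1 : ℕ) : ℝ) ^ (s' + 2))⁻¹ * ep p (n0 + 1) N| =
      (((n0 + 1 : ℕ) : ℝ) ^ s')⁻¹ * (ep p (n0 + 1) N * (|f n0| * (((n0 + 1 : ℕ) : ℝ) ^ 2)⁻¹)) := by
    rw [abs_mul, abs_mul, abs_of_nonneg (ep_nonneg p (n0 + 1) N),
      abs_of_nonneg (by positivity : (0 : ℝ) ≤ (((n0 + 1 : ℕ) : ℝ) ^ (s' + 2))⁻¹), pow_add, mul_inv]
    ring
  rw [h8] at h7
  have h9 : ep p (n0 + 1) N * ((((n0 + 1 : ℕ) : ℝ) ^ s')⁻¹ *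
      (|f n0| * (((n0 + 1 : ℕ) : ℝ) ^ 2)⁻¹ - ((n0 : ℝ) + 2) / p.length * Z)) =
      (((n0 + 1 : ℕ) : ℝ) ^ s')⁻¹ * (ep p (n0 + 1) N * (|f n0| * (((n0 + 1 : ℕ) : ℝ) ^ 2)⁻¹)) -
        (((n0 + 1 : ℕ) : ℝ) ^ s')⁻¹ * (((n0 : ℝ) + 2) / p.length * Z * ep p (n0 + 1) N) := by ring
  rw [h9]
  linarith

end Pool.Agent.Q217.TT
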