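import Mathlib
import Pool.Agent.Q217.TT.Sums
import Pool.Agent.TH507.ZS.HSb

/-!
# Finitely many values of the harmonic sums determine a linear combination
-/

set_option autoImplicit false

namespace Pool.Agent.Q217.TT

open Finset Filter
open Pool.Agent.H447R2.MZ (H H_nil H_cons H_cons_zero H_cons_succ H_nonneg Adm val)
open Pool.Agent.TH507.HS (hs hs_nil hs_cons gr gr_eq gr_zero gr_mul gr_sum KN yw kq kq_apply hyp)

/-- the underlying list of natural numbers -/
def nat (u : List ℕ+) : List ℕ := List.map (fun x : ℕ+ => (x : ℕ)) u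

lemma H_nat (u : List ℕ+) (n : ℕ) : H (nat u) n = ((hs u (n + 1) : ℚ) : ℝ) := by
  induction u generalizing n with
  | nil => rw [nat, List.map_nil, H_nil, hs_nil, Rat.cast_one]
  | cons x u ih =>
    rw [hs_cons, nat, List.map_cons, H_cons]
    rw [Finset.sum_Ico_eq_sum_range]
    push_cast
    refine Finset.sum_congr rfl fun j _ => ?_
    have h1 := ih j
    rw [nat] at h1
    rw [h1, add_comm 1 j, div_eq_inv_mul, add_comm (1 : ℝ) (j : ℝ)]

/-- independence over the rational numbers -/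
lemma indep_all (U : Finset (List ℕ+)) (c : List ℕ+ → ℚ)
    (h : ∀ n : ℕ, ∑ u ∈ U, c u * hs u (n + 1) = 0) : ∀ u ∈ U, c u = 0 := by
  have hlen : ∃ t, ∀ w ∈ U, w.length < t := by
    refine ⟨∑ w ∈ U, w.length + 1, fun w hw => ?_⟩
    have := Finset.single_le_sum (f := fun w : List ℕ+ => w.length) (fun _ _ => Nat.zero_le _) hw
    omega
  obtain ⟨t, ht⟩ := hlen
  have h1 := (hyp 1 le_rfl).indep t U (fun u => kq (c u)) ht (fun w => ?_) ?_
  · intro u hu
    have h2 := h1 u hu
    simp only [kq_apply] at h2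
    rw [← gr_zero, gr_eq] at h2
    obtain ⟨m, hm⟩ := h2.exists
    exact hm
  · refine ⟨Polynomial.C (c w).num, Polynomial.C ((c w).den : ℤ), ?_, ?_⟩
    · rw [Ne, Polynomial.C_eq_zero]
      exact_mod_cast (c w).den_nz
    · rw [kq_apply]
      congr 1
      funext m
      simp [Pool.Agent.TH507.HS.ev, Rat.num_div_den]
  · have h3 : ∀ u, kq (c u) * yw 1 u = gr fun m => c u * hs u (m + 1) := by
      intro u
      rw [kq_apply, yw, gr_mul]
      congr 1
      funext m
      rw [one_mul, add_comm]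
    rw [Finset.sum_congr rfl fun u _ => h3 u, ← gr_sum, ← gr_zero, gr_eq]
    exact Eventually.of_forall fun m => h m

/-- finitely many values suffice -/
lemma indep_fin (U : Finset (List ℕ+)) : ∃ M : ℕ, ∀ c : List ℕ+ → ℚ,
    (∀ n ≤ M, ∑ u ∈ U, c u * hs u (n + 1) = 0) → ∀ u ∈ U, c u = 0 := by
  classical
  let K : ℕ → Submodule ℚ (U → ℚ) := fun M =>
    { carrier := {c | ∀ n ≤ M, ∑ u : U, c u * hs u.1 (n + 1) = 0}
      zero_mem' := by intro n _; simp
      add_mem' := by
        intro a b ha hb n hn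
        have := ha n hn
        have := hb n hn
        simp only [Pi.add_apply, add_mul, Finset.sum_add_distrib]
        rw [ha n hn, hb n hn, add_zero]
      smul_mem' := by
        intro q a ha n hn
        simp only [Pi.smul_apply, smul_eq_mul, mul_assoc]
        rw [← Finset.mul_sum, ha n hn, mul_zero] }
  let F : ℕ →o (Submodule ℚ (U → ℚ))ᵒᵈ :=
    ⟨fun M => OrderDual.toDual (K M), fun a b hab c hc n hn => hc n (hn.trans hab)⟩
  obtain ⟨M, hM⟩ := IsArtinian.monotone_stabilizes F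
  refine ⟨M, fun c hc => ?_⟩
  have h1 : (fun u : U => c u.1) ∈ K M := by
    intro n hn
    rw [← hc n hn, ← Finset.sum_coe_sort U]
  refine indep_all U c fun n => ?_
  have h2 : K M = K (max M n) := hM (max M n) (le_max_left _ _)
  rw [h2] at h1
  have h3 := h1 n (le_max_right _ _)
  rw [← h3, ← Finset.sum_coe_sort U]

/-- a common denominator -/
lemma common_den (U : Finset (List ℕ+)) (M : ℕ) : ∃ D : ℕ, 1 ≤ D ∧ ∀ (c : List ℕ+ → ℤ), ∀ n ≤ M,
    ∑ u ∈ U, (c u : ℚ) * hs u (n + 1) ≠ 0 → 1 / (D : ℚ) ≤ |∑ u ∈ U, (c u : ℚ) * hs u (n + 1)| := by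
  classical
  refine ⟨∏ u ∈ U, ∏ n ∈ Finset.range (M + 1), (hs u (n + 1)).den, ?_, ?_⟩
  · exact Nat.succ_le_of_lt (Finset.prod_pos fun u _ => Finset.prod_pos fun n _ => Rat.den_pos _)
  · intro c n hn hne
    set D := ∏ u ∈ U, ∏ n ∈ Finset.range (M + 1), (hs u (n + 1)).den with hD
    have hD0 : 0 < D := Finset.prod_pos fun u _ => Finset.prod_pos fun n _ => Rat.den_pos _
    have h1 : ∀ u ∈ U, ∃ z : ℤ, (D : ℚ) * hs u (n + 1) = z := by
      intro u hu
      have h2 : (hs u (n + 1)).den ∣ D :=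
        (Finset.dvd_prod_of_mem (fun n => (hs u (n + 1)).den) (Finset.mem_range.2 (by omega : n < M + 1))).trans
          (Finset.dvd_prod_of_mem (fun u => ∏ n ∈ Finset.range (M + 1), (hs u (n + 1)).den) hu)
      obtain ⟨k, hk⟩ := h2
      refine ⟨k * (hs u (n + 1)).num, ?_⟩
      rw [hk]
      push_cast
      have h3 := Rat.mul_den_eq_num (hs u (n + 1))
      rw [← h3]
      ring
    choose! z hz using h1
    have h4 : (D : ℚ) * ∑ u ∈ U, (c u : ℚ) * hs u (n + 1) = ((∑ u ∈ U, c u * z u : ℤ) : ℚ) := by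
      rw [Finset.mul_sum]
      push_cast
      refine Finset.sum_congr rfl fun u hu => ?_
      rw [← hz u hu]
      ring
    have hDq : (0 : ℚ) < D := by exact_mod_cast hD0
    have h5 : (∑ u ∈ U, c u * z u : ℤ) ≠ 0 := by
      intro h
      rw [h, Int.cast_zero] at h4
      rcases mul_eq_zero.1 h4 with h | h
      · exact hDq.ne' h
      · exact hne h
    have h6 : (1 : ℚ) ≤ |((∑ u ∈ U, c u * z u : ℤ) : ℚ)| := by
      rw [← Int.cast_abs]
      exact_mod_cast Int.one_le_abs h5
    rw [← h4, abs_mul, abs_of_pos hDq] at h6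
    rw [div_le_iff₀ hDq, mul_comm]
    exact h6

end Pool.Agent.Q217.TT
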