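import Mathlib
import Pool.Agent.Q217.TT.Indep

/-!
# No relations of small height between the words `p u`, `u ∈ U`
-/

set_option autoImplicit false

namespace Pool.Agent.Q217.TT

open Filter Topology
open Pool.Agent.H447R2.MZ (H H_nil H_cons H_cons_zero H_cons_succ H_nonneg Adm val tendsto_H H_le_val)
open Pool.Agent.TH507.HS (hs)

lemma adm_app (p : List ℕ) (hp : ∀ x ∈ p, 2 ≤ x) (s : ℕ) (hs : 2 ≤ s) (u : List ℕ+) :
    Adm (p ++ s :: nat u) := by
  refine ⟨fun x hx => ?_, fun x t h => ?_⟩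
  · rcases List.mem_append.1 hx with h | h
    · exact le_trans (by norm_num) (hp x h)
    · rcases List.mem_cons.1 h with rfl | h
      · omega
      · rw [nat, List.mem_map] at h
        obtain ⟨y, _, rfl⟩ := h
        exact y.pos
  · cases p with
    | nil =>
      rw [List.nil_append] at h
      rw [← (List.cons.inj h).1]
      exact hs
    | cons y p =>
      rw [List.cons_append] at h
      rw [← (List.cons.inj h).1]
      exact hp y List.mem_cons_self

lemma val_nonneg' {s : List ℕ} (hs : Adm s) : 0 ≤ val s := (H_nonneg s 0).trans (H_le_val s hs 0)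

theorem main (U : Finset (List ℕ+)) : ∃ κ : ℝ, 0 < κ ∧ ∀ (p : List ℕ) (_ : ∀ x ∈ p, 2 ≤ x) (s : ℕ) (_ : 2 ≤ s)
    (c : List ℕ+ → ℤ), (∀ u ∈ U, |(c u : ℝ)| ≤ κ * p.length) →
    ∑ u ∈ U, (c u : ℝ) * val (p ++ s :: nat u) = 0 → ∀ u ∈ U, c u = 0 := by
  classical
  obtain ⟨M, hM⟩ := indep_fin U
  obtain ⟨D, hD1, hD⟩ := common_den U M
  have hadm2 : ∀ u, Adm ([] ++ 2 :: nat u) := fun u => adm_app [] (by simp) 2 le_rfl u
  set V : ℝ := ∑ u ∈ U, val ([] ++ 2 :: nat u) with hV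
  have hV0 : 0 ≤ V := Finset.sum_nonneg fun u _ => val_nonneg' (hadm2 u)
  have hDr : (0 : ℝ) < D := by exact_mod_cast hD1
  set κ : ℝ := 1 / (2 * D * ((M : ℝ) + 1) ^ 2 * ((M : ℝ) + 2) * (V + 1)) with hκ
  have hκ0 : 0 < κ := by rw [hκ]; positivity
  refine ⟨κ, hκ0, fun p hp s hs c hc hsum => ?_⟩
  by_contra hcon
  rcases Nat.eq_zero_or_pos p.length with ha | ha
  · apply hcon
    intro u hu
    have h1 := hc u hu
    rw [ha, Nat.cast_zero, mul_zero] at h1
    have h2 := abs_nonpos_iff.1 h1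
    exact_mod_cast h2
  have har : (0 : ℝ) < p.length := by exact_mod_cast ha
  -- the values
  let f : ℕ → ℝ := fun n => ∑ u ∈ U, (c u : ℝ) * H (nat u) n
  have hf : ∀ n, f n = ((∑ u ∈ U, (c u : ℚ) * Pool.Agent.TH507.HS.hs u (n + 1) : ℚ) : ℝ) := by
    intro n
    push_cast
    exact Finset.sum_congr rfl fun u _ => by rw [H_nat]
  have hex : ∃ n, n ≤ M ∧ ∑ u ∈ U, (c u : ℚ) * Pool.Agent.TH507.HS.hs u (n + 1) ≠ 0 := by
    by_contra h
    push Not at h
    apply hcon
    intro u hu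
    have := hM (fun u => (c u : ℚ)) h u hu
    exact_mod_cast this
  have hn0 := Nat.find_spec hex
  have hmin : ∀ n < Nat.find hex, f n = 0 := by
    intro n hn
    have h1 := Nat.find_min hex hn
    rw [hf]
    by_contra h2
    exact h1 ⟨hn.le.trans hn0.1, fun h3 => h2 (by rw [h3, Rat.cast_zero])⟩
  set n0 := Nat.find hex with hn0def
  have hlow : 1 / (D : ℝ) ≤ |f n0| := by
    have h1 := hD c n0 hn0.1 hn0.2
    rw [hf, ← Rat.cast_abs]
    have h2 := (Rat.cast_le (K := ℝ)).2 h1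
    rw [Rat.cast_div, Rat.cast_one, Rat.cast_natCast] at h2
    exact h2
  let g : ℕ → ℝ := fun n => κ * p.length * ∑ u ∈ U, H (nat u) n
  have hfg : ∀ n, |f n| ≤ g n := by
    intro n
    refine (Finset.abs_sum_le_sum_abs _ _).trans ?_
    rw [show g n = κ * p.length * ∑ u ∈ U, H (nat u) n from rfl, Finset.mul_sum]
    refine Finset.sum_le_sum fun u hu => ?_
    rw [abs_mul, abs_of_nonneg (H_nonneg (nat u) n)]
    exact mul_le_mul_of_nonneg_right (hc u hu) (H_nonneg _ _)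
  have hZ : ∀ N, ∑ n ∈ Finset.range N, g n * (((n + 1 : ℕ) : ℝ) ^ 2)⁻¹ ≤ κ * p.length * V := by
    intro N
    have h1 : ∑ n ∈ Finset.range N, g n * (((n + 1 : ℕ) : ℝ) ^ 2)⁻¹ =
        κ * p.length * ∑ u ∈ U, H ([] ++ 2 :: nat u) N := by
      have h2 : ∀ u, H ([] ++ 2 :: nat u) N =
          ∑ n ∈ Finset.range N, H (nat u) n * (((n + 1 : ℕ) : ℝ) ^ 2)⁻¹ := by
        intro u
        rw [H_app]
        exact Finset.sum_congr rfl fun n _ => by rw [ep_nil, mul_one]
      rw [Finset.sum_congr rfl fun u _ => h2 u, Finset.sum_comm, Finset.mul_sum]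
      refine Finset.sum_congr rfl fun n _ => ?_
      rw [show g n = κ * p.length * ∑ u ∈ U, H (nat u) n from rfl, mul_assoc, Finset.sum_mul]
    rw [h1]
    refine mul_le_mul_of_nonneg_left (Finset.sum_le_sum fun u _ => ?_) (by positivity)
    exact H_le_val _ (hadm2 u) N
  have hkey := fun N hN => lower f g n0 p hp s hs N ha hN hmin hfg hZ
  -- the constant
  set δ : ℝ := (((n0 + 1 : ℕ) : ℝ) ^ (s - 2))⁻¹ *
    (|f n0| * (((n0 + 1 : ℕ) : ℝ) ^ 2)⁻¹ - ((n0 : ℝ) + 2) / p.length * (κ * p.length * V)) with hδ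
  have hn0M : (n0 : ℝ) ≤ M := by exact_mod_cast hn0.1
  have hn00 : (0 : ℝ) ≤ n0 := Nat.cast_nonneg _
  have hδ0 : 0 < δ := by
    have h1 : ((n0 : ℝ) + 2) / p.length * (κ * p.length * V) = ((n0 : ℝ) + 2) * (κ * V) := by field_simp
    have h2 : ((n0 : ℝ) + 2) * (κ * V) ≤ ((M : ℝ) + 2) * (κ * V) :=
      mul_le_mul_of_nonneg_right (by linarith) (by positivity)
    have h3 : ((M : ℝ) + 2) * (κ * V) < ((M : ℝ) + 2) * (κ * (V + 1)) := by
      have : 0 < ((M : ℝ) + 2) * κ := by positivity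
      nlinarith
    have h4 : ((M : ℝ) + 2) * (κ * (V + 1)) = 1 / (2 * D * ((M : ℝ) + 1) ^ 2) := by
      rw [hκ]
      field_simp
    have h5 : 1 / (D : ℝ) * (((M : ℝ) + 1) ^ 2)⁻¹ ≤ |f n0| * (((n0 + 1 : ℕ) : ℝ) ^ 2)⁻¹ := by
      refine mul_le_mul hlow ?_ (by positivity) (abs_nonneg _)
      apply inv_anti₀ (by positivity)
      push_cast
      apply pow_le_pow_left₀ (by positivity)
      linarith
    have h6 : 1 / (2 * D * ((M : ℝ) + 1) ^ 2) < 1 / (D : ℝ) * (((M : ℝ) + 1) ^ 2)⁻¹ := by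
      rw [← one_div, div_mul_div_comm, mul_one]
      apply one_div_lt_one_div_of_lt (by positivity)
      have : 0 < (D : ℝ) * ((M : ℝ) + 1) ^ 2 := by positivity
      linarith
    rw [hδ, h1]
    exact mul_pos (by positivity) (by linarith)
  set ε : ℝ := ep p (n0 + 1) (n0 + 1 + p.length) with hε
  have hε0 : 0 < ε := ep_pos p (n0 + 1)
  have hbound : ∀ N, n0 + 1 + p.length ≤ N →
      ε * δ ≤ |∑ u ∈ U, (c u : ℝ) * H (p ++ s :: nat u) N| := by
    intro N hN
    have h1 := hkey N (by omega)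
    have h2 : ε ≤ ep p (n0 + 1) N := ep_mono (by omega) hN
    have h3 : ∑ n ∈ Finset.range N, f n * (((n + 1 : ℕ) : ℝ) ^ s)⁻¹ * ep p (n + 1) N =
        ∑ u ∈ U, (c u : ℝ) * H (p ++ s :: nat u) N := by
      rw [Finset.sum_congr rfl fun (u : List ℕ+) _ => by rw [H_app, Finset.mul_sum], Finset.sum_comm]
      refine Finset.sum_congr rfl fun n _ => ?_
      rw [show f n = ∑ u ∈ U, (c u : ℝ) * H (nat u) n from rfl, Finset.sum_mul, Finset.sum_mul]
      exact Finset.sum_congr rfl fun u _ => by ring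
    rw [h3] at h1
    exact (mul_le_mul_of_nonneg_right h2 hδ0.le).trans h1
  have htend : Tendsto (fun N => |∑ u ∈ U, (c u : ℝ) * H (p ++ s :: nat u) N|) atTop
      (𝓝 |∑ u ∈ U, (c u : ℝ) * val (p ++ s :: nat u)|) :=
    (tendsto_finsetSum _ fun u _ => (tendsto_H _ (adm_app p hp s hs u)).const_mul _).abs
  rw [hsum, abs_zero] at htend
  have hfin : ε * δ ≤ 0 := ge_of_tendsto htend (by
    filter_upwards [eventually_ge_atTop (n0 + 1 + p.length)] with N hN
    exact hbound N hN)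
  have := mul_pos hε0 hδ0
  linarith

/-- **Theorem.** The version for nonempty prefixes. -/
theorem main' (U : Finset (List ℕ+)) : ∃ κ : ℝ, 0 < κ ∧ ∀ (p : List ℕ) (_ : p ≠ []) (_ : ∀ x ∈ p, 2 ≤ x)
    (c : List ℕ+ → ℤ), (∀ u ∈ U, |(c u : ℝ)| ≤ κ * p.length) →
    ∑ u ∈ U, (c u : ℝ) * val (p ++ nat u) = 0 → ∀ u ∈ U, c u = 0 := by
  obtain ⟨κ, hκ, h⟩ := main U
  refine ⟨min (κ / 2) (1 / 2), lt_min (by positivity) (by norm_num), fun p hp0 hp c hc hsum => ?_⟩
  obtain ⟨q, s, rfl⟩ : ∃ q s, p = q ++ [s] := by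
    rcases List.eq_nil_or_concat p with rfl | ⟨q, s, rfl⟩
    · exact absurd rfl hp0
    · exact ⟨q, s, List.concat_eq_append⟩
  have hs : 2 ≤ s := hp s (by simp)
  have hq : ∀ x ∈ q, 2 ≤ x := fun x hx => hp x (by simp [hx])
  have hlen : (((q ++ [s]).length : ℕ) : ℝ) = q.length + 1 := by
    rw [List.length_append, List.length_singleton]
    push_cast
    ring
  rw [hlen] at hc
  rcases Nat.eq_zero_or_pos q.length with ha | ha
  · intro u hu
    have h1 := hc u hu
    rw [ha, Nat.cast_zero, zero_add, mul_one] at h1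
    have h2 : |(c u : ℝ)| < 1 := lt_of_le_of_lt (h1.trans (min_le_right _ _)) (by norm_num)
    rw [← Int.cast_abs] at h2
    have h3 : |c u| < 1 := by exact_mod_cast h2
    exact Int.abs_lt_one_iff.1 h3
  · refine h q hq s hs c (fun u hu => (hc u hu).trans ?_) ?_
    · have ha' : (1 : ℝ) ≤ q.length := by exact_mod_cast ha
      calc min (κ / 2) (1 / 2) * ((q.length : ℝ) + 1) ≤ κ / 2 * ((q.length : ℝ) + 1) :=
            mul_le_mul_of_nonneg_right (min_le_left _ _) (by positivity)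
        _ ≤ κ / 2 * (2 * q.length) := mul_le_mul_of_nonneg_left (by linarith) (by positivity)
        _ = κ * q.length := by ring
    · rw [← hsum]
      refine Finset.sum_congr rfl fun u _ => ?_
      rw [List.append_assoc, List.singleton_append]

end Pool.Agent.Q217.TT
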