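import Mathlib
import Pool.Agent.Q217.TT.Main

/-!
# A lower bound for the linear forms in the `ζ(p u)`
-/

set_option autoImplicit false

namespace Pool.Agent.Q217.TT

open Filter Topology
open Pool.Agent.H447R2.MZ (H H_nil H_cons H_cons_zero H_cons_succ H_nonneg Adm val tendsto_H H_le_val)

lemma H_two_zero (M : ℕ) : ∀ n < M, H (List.replicate M 2) n = 0 := by
  induction M with
  | zero => intro n hn; exact absurd hn (Nat.not_lt_zero _)
  | succ M ih =>
    intro n hn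
    rw [List.replicate_succ, H_cons]
    refine Finset.sum_eq_zero fun k hk => ?_
    rw [ih k (by have := Finset.mem_range.1 hk; omega), mul_zero]

lemma upper (M n0 : ℕ) (h0 : n0 ≤ M) (p : List ℕ) (s : ℕ) (hs : 2 ≤ s) (N : ℕ) :
    H (p ++ s :: List.replicate M 2) N ≤
      (((n0 + 1 : ℕ) : ℝ) ^ (s - 2))⁻¹ * ep p (n0 + 1) N * H ([] ++ 2 :: List.replicate M 2) N := by
  obtain ⟨s', rfl⟩ : ∃ s', s = s' + 2 := ⟨s - 2, by omega⟩
  rw [Nat.add_sub_cancel, H_app, H_app, Finset.mul_sum]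
  refine Finset.sum_le_sum fun n hn => ?_
  rw [ep_nil, mul_one]
  rcases Nat.lt_or_ge n M with h | h
  · rw [H_two_zero M n h]
    simp
  · have h1 : ep p (n + 1) N ≤ ep p (n0 + 1) N :=
      ep_anti p (by omega) (by have := Finset.mem_range.1 hn; omega)
    have h5 : (((n + 1 : ℕ) : ℝ) ^ (s' + 2))⁻¹ ≤
        (((n + 1 : ℕ) : ℝ) ^ 2)⁻¹ * (((n0 + 1 : ℕ) : ℝ) ^ s')⁻¹ := by
      rw [← mul_inv]
      apply inv_anti₀ (by positivity)
      rw [pow_add, mul_comm]
      apply mul_le_mul_of_nonneg_right _ (by positivity)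
      apply pow_le_pow_left₀ (by positivity)
      exact_mod_cast (by omega : n0 + 1 ≤ n + 1)
    have hH := H_nonneg (List.replicate M 2) n
    calc H (List.replicate M 2) n * (((n + 1 : ℕ) : ℝ) ^ (s' + 2))⁻¹ * ep p (n + 1) N
        ≤ H (List.replicate M 2) n * ((((n + 1 : ℕ) : ℝ) ^ 2)⁻¹ * (((n0 + 1 : ℕ) : ℝ) ^ s')⁻¹) *
            ep p (n0 + 1) N :=
          mul_le_mul (mul_le_mul_of_nonneg_left h5 hH) h1 (ep_nonneg _ _ _)
            (mul_nonneg hH (by positivity))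
      _ = _ := by ring

lemma adm_two (p : List ℕ) (hp : ∀ x ∈ p, 2 ≤ x) (s : ℕ) (hs : 2 ≤ s) (M : ℕ) :
    Adm (p ++ s :: List.replicate M 2) := by
  have h := adm_app p hp s hs (List.replicate M 2)
  rw [nat, List.map_replicate] at h
  exact h

theorem measure (U : Finset (List ℕ+)) : ∃ κ : ℝ, 0 < κ ∧ ∃ M : ℕ, ∀ (p : List ℕ) (_ : ∀ x ∈ p, 2 ≤ x) (s : ℕ)
    (_ : 2 ≤ s) (c : List ℕ+ → ℤ), (∀ u ∈ U, |(c u : ℝ)| ≤ κ * p.length) → (∃ u ∈ U, c u ≠ 0) →
    κ * val (p ++ s :: List.replicate M 2) ≤ |∑ u ∈ U, (c u : ℝ) * val (p ++ s :: nat u)| := by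
  classical
  obtain ⟨M, hM⟩ := indep_fin U
  obtain ⟨D, hD1, hD⟩ := common_den U M
  have hadm2 : ∀ u, Adm ([] ++ 2 :: nat u) := fun u => adm_app [] (by simp) 2 le_rfl u
  set V : ℝ := ∑ u ∈ U, val ([] ++ 2 :: nat u) with hV
  have hV0 : 0 ≤ V := Finset.sum_nonneg fun u _ => val_nonneg' (hadm2 u)
  have hDr : (0 : ℝ) < D := by exact_mod_cast hD1
  have hadmM : Adm ([] ++ 2 :: List.replicate M 2) := adm_two [] (by simp) 2 le_rfl M
  set V2 : ℝ := val ([] ++ 2 :: List.replicate M 2) with hV2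
  have hV20 : 0 ≤ V2 := val_nonneg' hadmM
  set κ1 : ℝ := 1 / (2 * D * ((M : ℝ) + 1) ^ 2 * ((M : ℝ) + 2) * (V + 1)) with hκ1
  have hκ10 : 0 < κ1 := by rw [hκ1]; positivity
  set δ1 : ℝ := 1 / (2 * D * ((M : ℝ) + 1) ^ 2) with hδ1
  have hδ10 : 0 < δ1 := by rw [hδ1]; positivity
  refine ⟨min κ1 (δ1 / (V2 + 1)), lt_min hκ10 (by positivity), M, fun p hp s hs c hc hne => ?_⟩
  have hc1 : ∀ u ∈ U, |(c u : ℝ)| ≤ κ1 * p.length := fun u hu =>
    (hc u hu).trans (mul_le_mul_of_nonneg_right (min_le_left _ _) (Nat.cast_nonneg _))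
  rcases Nat.eq_zero_or_pos p.length with ha | ha
  · exfalso
    obtain ⟨u, hu, hcu⟩ := hne
    have h1 := hc1 u hu
    rw [ha, Nat.cast_zero, mul_zero] at h1
    have h2 := abs_nonpos_iff.1 h1
    exact hcu (by exact_mod_cast h2)
  have har : (0 : ℝ) < p.length := by exact_mod_cast ha
  -- the values
  let f : ℕ → ℝ := fun n => ∑ u ∈ U, (c u : ℝ) * H (nat u) n
  have hf : ∀ n, f n = ((∑ u ∈ U, (c u : ℚ) * Pool.Agent.TH507.HS.hs u (n + 1) : ℚ) : ℝ) := by
    intro n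
    push_cast
    exact Finset.sum_congr rfl fun u _ => by rw [H_nat]
  have hex : ∃ n, n ≤ M ∧ ∑ u ∈ U, (c u : ℚ) * Pool.Agent.TH507.HS.hs u (n + 1) ≠ 0 := by
    by_contra h
    push Not at h
    obtain ⟨u, hu, hcu⟩ := hne
    apply hcu
    have := hM (fun u => (c u : ℚ)) h u hu
    exact_mod_cast this
  have hn0 := Nat.find_spec hex
  have hmin : ∀ n < Nat.find hex, f n = 0 := by
    intro n hn
    have h1 := Nat.find_min hex hn
    rw [hf]
    by_contra h2
    exact h1 ⟨hn.le.trans hn0.1, fun h3 => h2 (by rw [h3, Rat.cast_zero])⟩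
  set n0 := Nat.find hex with hn0def
  have hlow : 1 / (D : ℝ) ≤ |f n0| := by
    have h1 := hD c n0 hn0.1 hn0.2
    rw [hf, ← Rat.cast_abs]
    have h2 := (Rat.cast_le (K := ℝ)).2 h1
    rw [Rat.cast_div, Rat.cast_one, Rat.cast_natCast] at h2
    exact h2
  let g : ℕ → ℝ := fun n => κ1 * p.length * ∑ u ∈ U, H (nat u) n
  have hfg : ∀ n, |f n| ≤ g n := by
    intro n
    refine (Finset.abs_sum_le_sum_abs _ _).trans ?_
    rw [show g n = κ1 * p.length * ∑ u ∈ U, H (nat u) n from rfl, Finset.mul_sum]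
    refine Finset.sum_le_sum fun u hu => ?_
    rw [abs_mul, abs_of_nonneg (H_nonneg (nat u) n)]
    exact mul_le_mul_of_nonneg_right (hc1 u hu) (H_nonneg _ _)
  have hZ : ∀ N, ∑ n ∈ Finset.range N, g n * (((n + 1 : ℕ) : ℝ) ^ 2)⁻¹ ≤ κ1 * p.length * V := by
    intro N
    have h1 : ∑ n ∈ Finset.range N, g n * (((n + 1 : ℕ) : ℝ) ^ 2)⁻¹ =
        κ1 * p.length * ∑ u ∈ U, H ([] ++ 2 :: nat u) N := by
      have h2 : ∀ u, H ([] ++ 2 :: nat u) N =
          ∑ n ∈ Finset.range N, H (nat u) n * (((n + 1 : ℕ) : ℝ) ^ 2)⁻¹ := by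
        intro u
        rw [H_app]
        exact Finset.sum_congr rfl fun n _ => by rw [ep_nil, mul_one]
      rw [Finset.sum_congr rfl fun u _ => h2 u, Finset.sum_comm, Finset.mul_sum]
      refine Finset.sum_congr rfl fun n _ => ?_
      rw [show g n = κ1 * p.length * ∑ u ∈ U, H (nat u) n from rfl, mul_assoc, Finset.sum_mul]
    rw [h1]
    refine mul_le_mul_of_nonneg_left (Finset.sum_le_sum fun u _ => ?_) (by positivity)
    exact H_le_val _ (hadm2 u) N
  have hkey := fun N hN => lower f g n0 p hp s hs N ha hN hmin hfg hZ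
  have hn0M : (n0 : ℝ) ≤ M := by exact_mod_cast hn0.1
  have hn00 : (0 : ℝ) ≤ n0 := Nat.cast_nonneg _
  have hδ0 : δ1 ≤ |f n0| * (((n0 + 1 : ℕ) : ℝ) ^ 2)⁻¹ - ((n0 : ℝ) + 2) / p.length * (κ1 * p.length * V) := by
    have h1 : ((n0 : ℝ) + 2) / p.length * (κ1 * p.length * V) = ((n0 : ℝ) + 2) * (κ1 * V) := by field_simp
    have h2 : ((n0 : ℝ) + 2) * (κ1 * V) ≤ ((M : ℝ) + 2) * (κ1 * V) :=
      mul_le_mul_of_nonneg_right (by linarith) (by positivity)
    have h3 : ((M : ℝ) + 2) * (κ1 * V) ≤ ((M : ℝ) + 2) * (κ1 * (V + 1)) := by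
      have : 0 < ((M : ℝ) + 2) * κ1 := by positivity
      nlinarith
    have h4 : ((M : ℝ) + 2) * (κ1 * (V + 1)) = δ1 := by
      rw [hκ1, hδ1]
      field_simp
    have h5 : 1 / (D : ℝ) * (((M : ℝ) + 1) ^ 2)⁻¹ ≤ |f n0| * (((n0 + 1 : ℕ) : ℝ) ^ 2)⁻¹ := by
      refine mul_le_mul hlow ?_ (by positivity) (abs_nonneg _)
      apply inv_anti₀ (by positivity)
      push_cast
      apply pow_le_pow_left₀ (by positivity)
      linarith
    have h6 : 1 / (D : ℝ) * (((M : ℝ) + 1) ^ 2)⁻¹ = 2 * δ1 := by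
      rw [hδ1]
      field_simp
    rw [h1]
    linarith
  have hbound : ∀ N, n0 + 1 ≤ N →
      min κ1 (δ1 / (V2 + 1)) * H (p ++ s :: List.replicate M 2) N ≤
        |∑ u ∈ U, (c u : ℝ) * H (p ++ s :: nat u) N| := by
    intro N hN
    have h1 := hkey N hN
    have h3 : ∑ n ∈ Finset.range N, f n * (((n + 1 : ℕ) : ℝ) ^ s)⁻¹ * ep p (n + 1) N =
        ∑ u ∈ U, (c u : ℝ) * H (p ++ s :: nat u) N := by
      rw [Finset.sum_congr rfl fun (u : List ℕ+) _ => by rw [H_app, Finset.mul_sum], Finset.sum_comm]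
      refine Finset.sum_congr rfl fun n _ => ?_
      rw [show f n = ∑ u ∈ U, (c u : ℝ) * H (nat u) n from rfl, Finset.sum_mul, Finset.sum_mul]
      exact Finset.sum_congr rfl fun u _ => by ring
    rw [h3] at h1
    set C : ℝ := (((n0 + 1 : ℕ) : ℝ) ^ (s - 2))⁻¹ * ep p (n0 + 1) N with hC
    have hC0 : 0 ≤ C := mul_nonneg (by positivity) (ep_nonneg _ _ _)
    have h4 : C * δ1 ≤ |∑ u ∈ U, (c u : ℝ) * H (p ++ s :: nat u) N| := by
      refine le_trans ?_ h1
      refine (mul_le_mul_of_nonneg_left hδ0 hC0).trans (le_of_eq ?_)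
      rw [hC]
      ring
    have h5 := upper M n0 hn0.1 p s hs N
    have h6 : C * H ([] ++ 2 :: List.replicate M 2) N ≤ C * V2 :=
      mul_le_mul_of_nonneg_left (H_le_val _ hadmM N) hC0
    have h7 := H_nonneg (p ++ s :: List.replicate M 2) N
    calc min κ1 (δ1 / (V2 + 1)) * H (p ++ s :: List.replicate M 2) N
        ≤ δ1 / (V2 + 1) * H (p ++ s :: List.replicate M 2) N :=
          mul_le_mul_of_nonneg_right (min_le_right _ _) h7
      _ ≤ δ1 / (V2 + 1) * (C * V2) := mul_le_mul_of_nonneg_left (h5.trans h6) (by positivity)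
      _ ≤ δ1 / (V2 + 1) * (C * (V2 + 1)) := by
          refine mul_le_mul_of_nonneg_left (mul_le_mul_of_nonneg_left (by linarith) hC0) (by positivity)
      _ = C * δ1 := by field_simp
      _ ≤ _ := h4
  have htend : Tendsto (fun N => |∑ u ∈ U, (c u : ℝ) * H (p ++ s :: nat u) N|) atTop
      (𝓝 |∑ u ∈ U, (c u : ℝ) * val (p ++ s :: nat u)|) :=
    (tendsto_finsetSum _ fun u _ => (tendsto_H _ (adm_app p hp s hs u)).const_mul _).abs
  have htend2 : Tendsto (fun N => min κ1 (δ1 / (V2 + 1)) * H (p ++ s :: List.replicate M 2) N) atTop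
      (𝓝 (min κ1 (δ1 / (V2 + 1)) * val (p ++ s :: List.replicate M 2))) :=
    (tendsto_H _ (adm_two p hp s hs M)).const_mul _
  refine le_of_tendsto_of_tendsto htend2 htend ?_
  filter_upwards [eventually_ge_atTop (n0 + 1)] with N hN
  exact hbound N hN

/-- the version for nonempty prefixes -/
theorem measure' (U : Finset (List ℕ+)) : ∃ κ : ℝ, 0 < κ ∧ ∃ M : ℕ, ∀ (p : List ℕ) (_ : p ≠ [])
    (_ : ∀ x ∈ p, 2 ≤ x) (c : List ℕ+ → ℤ), (∀ u ∈ U, |(c u : ℝ)| ≤ κ * p.length) → (∃ u ∈ U, c u ≠ 0) →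
    κ * val (p ++ List.replicate M 2) ≤ |∑ u ∈ U, (c u : ℝ) * val (p ++ nat u)| := by
  obtain ⟨κ, hκ, M, h⟩ := measure U
  refine ⟨min (κ / 2) (1 / 2), lt_min (by positivity) (by norm_num), M, fun p hp0 hp c hc hne => ?_⟩
  obtain ⟨q, s, rfl⟩ : ∃ q s, p = q ++ [s] := by
    rcases List.eq_nil_or_concat p with rfl | ⟨q, s, rfl⟩
    · exact absurd rfl hp0
    · exact ⟨q, s, List.concat_eq_append⟩
  have hs : 2 ≤ s := hp s (by simp)
  have hq : ∀ x ∈ q, 2 ≤ x := fun x hx => hp x (by simp [hx])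
  have hlen : (((q ++ [s]).length : ℕ) : ℝ) = q.length + 1 := by
    rw [List.length_append, List.length_singleton]
    push_cast
    ring
  rw [hlen] at hc
  rcases Nat.eq_zero_or_pos q.length with ha | ha
  · exfalso
    obtain ⟨u, hu, hcu⟩ := hne
    have h1 := hc u hu
    rw [ha, Nat.cast_zero, zero_add, mul_one] at h1
    have h2 : |(c u : ℝ)| < 1 := lt_of_le_of_lt (h1.trans (min_le_right _ _)) (by norm_num)
    rw [← Int.cast_abs] at h2
    have h3 : |c u| < 1 := by exact_mod_cast h2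
    exact hcu (Int.abs_lt_one_iff.1 h3)
  · have h1 := h q hq s hs c (fun u hu => (hc u hu).trans ?_) hne
    · have e1 : ∀ v : List ℕ, q ++ [s] ++ v = q ++ s :: v := fun v => by
        rw [List.append_assoc, List.singleton_append]
      simp only [e1]
      refine le_trans (mul_le_mul_of_nonneg_right ?_ (val_nonneg' (adm_two q hq s hs M))) h1
      exact (min_le_left _ _).trans (by linarith)
    · have ha' : (1 : ℝ) ≤ q.length := by exact_mod_cast ha
      calc min (κ / 2) (1 / 2) * ((q.length : ℝ) + 1) ≤ κ / 2 * ((q.length : ℝ) + 1) :=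
            mul_le_mul_of_nonneg_right (min_le_left _ _) (by positivity)
        _ ≤ κ / 2 * (2 * q.length) := mul_le_mul_of_nonneg_left (by linarith) (by positivity)
        _ = κ * q.length := by ring

lemma H_pos_twos (M : ℕ) (p : List ℕ) : 0 < H (p ++ List.replicate M 2) (p.length + M) := by
  have h0 : ∀ M : ℕ, 0 < H (List.replicate M 2) M := by
    intro M
    induction M with
    | zero => rw [List.replicate_zero, H_nil]; exact one_pos
    | succ M ih =>
      rw [List.replicate_succ, H_cons_succ]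
      have h1 := H_nonneg (2 :: List.replicate M 2) M
      have h2 : (0 : ℝ) < (((M + 1 : ℕ) : ℝ) ^ 2)⁻¹ * H (List.replicate M 2) M := mul_pos (by positivity) ih
      linarith
  induction p with
  | nil => rw [List.nil_append, List.length_nil, zero_add]; exact h0 M
  | cons s p ih =>
    rw [List.cons_append, List.length_cons, show p.length + 1 + M = p.length + M + 1 by ring, H_cons_succ]
    have h1 := H_nonneg (s :: (p ++ List.replicate M 2)) (p.length + M)
    have h2 : (0 : ℝ) < (((p.length + M + 1 : ℕ) : ℝ) ^ s)⁻¹ * H (p ++ List.replicate M 2) (p.length + M) :=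
      mul_pos (by positivity) ih
    linarith

end Pool.Agent.Q217.TT
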