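import Mathlib
import Pool.Agent.Q217.TT.Main

/-!
# Real coefficients
-/

set_option autoImplicit false

namespace Pool.Agent.Q217.TT

open Filter Topology
open Pool.Agent.H447R2.MZ (H H_nil H_cons H_cons_zero H_cons_succ H_nonneg Adm val tendsto_H H_le_val)

lemma real_indep (U : Finset (List ℕ+)) (c : List ℕ+ → ℝ)
    (h : ∀ n : ℕ, ∑ u ∈ U, c u * H (nat u) n = 0) : ∀ u ∈ U, c u = 0 := by
  intro u0 hu0
  rw [← Module.forall_dual_apply_eq_zero_iff ℚ]
  intro φ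
  refine indep_all U (fun u => φ (c u)) (fun n => ?_) u0 hu0
  have h1 := congrArg φ (h n)
  rw [map_zero, map_sum] at h1
  rw [← h1]
  refine Finset.sum_congr rfl fun u _ => ?_
  have h2 : c u * H (nat u) n = (Pool.Agent.TH507.HS.hs u (n + 1)) • c u := by
    rw [H_nat, Rat.smul_def, mul_comm]
  rw [h2, map_smul, smul_eq_mul, mul_comm]

theorem main_real (U : Finset (List ℕ+)) (c : List ℕ+ → ℝ) (hne : ∃ u ∈ U, c u ≠ 0) : ∃ L : ℕ,
    ∀ (p : List ℕ) (_ : ∀ x ∈ p, 2 ≤ x) (s : ℕ) (_ : 2 ≤ s), L ≤ p.length →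
    ∑ u ∈ U, c u * val (p ++ s :: nat u) ≠ 0 := by
  classical
  let f : ℕ → ℝ := fun n => ∑ u ∈ U, c u * H (nat u) n
  have hex : ∃ n, f n ≠ 0 := by
    by_contra h
    push Not at h
    obtain ⟨u, hu, hcu⟩ := hne
    exact hcu (real_indep U c h u hu)
  have hn0 := Nat.find_spec hex
  have hmin : ∀ n < Nat.find hex, f n = 0 := fun n hn => not_not.1 (Nat.find_min hex hn)
  set n0 := Nat.find hex with hn0def
  have hadm2 : ∀ u, Adm ([] ++ 2 :: nat u) := fun u => adm_app [] (by simp) 2 le_rfl u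
  set V : ℝ := ∑ u ∈ U, |c u| * val ([] ++ 2 :: nat u) with hV
  have hV0 : 0 ≤ V := Finset.sum_nonneg fun u _ => mul_nonneg (abs_nonneg _) (val_nonneg' (hadm2 u))
  let g : ℕ → ℝ := fun n => ∑ u ∈ U, |c u| * H (nat u) n
  have hfg : ∀ n, |f n| ≤ g n := by
    intro n
    refine (Finset.abs_sum_le_sum_abs _ _).trans ?_
    refine Finset.sum_le_sum fun u hu => ?_
    rw [abs_mul, abs_of_nonneg (H_nonneg (nat u) n)]
  have hZ : ∀ N, ∑ n ∈ Finset.range N, g n * (((n + 1 : ℕ) : ℝ) ^ 2)⁻¹ ≤ V := by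
    intro N
    have h1 : ∑ n ∈ Finset.range N, g n * (((n + 1 : ℕ) : ℝ) ^ 2)⁻¹ =
        ∑ u ∈ U, |c u| * H ([] ++ 2 :: nat u) N := by
      have h2 : ∀ u, H ([] ++ 2 :: nat u) N =
          ∑ n ∈ Finset.range N, H (nat u) n * (((n + 1 : ℕ) : ℝ) ^ 2)⁻¹ := by
        intro u
        rw [H_app]
        exact Finset.sum_congr rfl fun n _ => by rw [ep_nil, mul_one]
      rw [Finset.sum_congr rfl fun (u : List ℕ+) _ => by rw [h2 u, Finset.mul_sum], Finset.sum_comm]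
      refine Finset.sum_congr rfl fun n _ => ?_
      rw [show g n = ∑ u ∈ U, |c u| * H (nat u) n from rfl, Finset.sum_mul]
      exact Finset.sum_congr rfl fun u _ => by ring
    rw [h1]
    exact Finset.sum_le_sum fun u _ => mul_le_mul_of_nonneg_left (H_le_val _ (hadm2 u) N) (abs_nonneg _)
  have hf0 : 0 < |f n0| := abs_pos.2 hn0
  have hA : (0 : ℝ) < |f n0| * (((n0 + 1 : ℕ) : ℝ) ^ 2)⁻¹ := mul_pos hf0 (by positivity)
  obtain ⟨L, hL⟩ := exists_nat_gt (((n0 : ℝ) + 2) * V / (|f n0| * (((n0 + 1 : ℕ) : ℝ) ^ 2)⁻¹))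
  refine ⟨L + 1, fun p hp s hs hLp hsum => ?_⟩
  have ha : 1 ≤ p.length := by omega
  have har : (0 : ℝ) < p.length := by exact_mod_cast ha
  have hkey := fun N hN => lower f g n0 p hp s hs N ha hN hmin hfg hZ
  set δ : ℝ := (((n0 + 1 : ℕ) : ℝ) ^ (s - 2))⁻¹ *
    (|f n0| * (((n0 + 1 : ℕ) : ℝ) ^ 2)⁻¹ - ((n0 : ℝ) + 2) / p.length * V) with hδ
  have hδ0 : 0 < δ := by
    have h1 : ((n0 : ℝ) + 2) / p.length * V < |f n0| * (((n0 + 1 : ℕ) : ℝ) ^ 2)⁻¹ := by
      rw [div_mul_eq_mul_div, div_lt_iff₀ har]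
      rw [div_lt_iff₀ hA] at hL
      have h2 : (L : ℝ) ≤ p.length := by exact_mod_cast (by omega : L ≤ p.length)
      calc ((n0 : ℝ) + 2) * V < L * (|f n0| * (((n0 + 1 : ℕ) : ℝ) ^ 2)⁻¹) := hL
        _ ≤ p.length * (|f n0| * (((n0 + 1 : ℕ) : ℝ) ^ 2)⁻¹) := mul_le_mul_of_nonneg_right h2 hA.le
        _ = _ := mul_comm _ _
    exact mul_pos (by positivity) (by linarith)
  set ε : ℝ := ep p (n0 + 1) (n0 + 1 + p.length) with hε
  have hε0 : 0 < ε := ep_pos p (n0 + 1)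
  have hbound : ∀ N, n0 + 1 + p.length ≤ N →
      ε * δ ≤ |∑ u ∈ U, c u * H (p ++ s :: nat u) N| := by
    intro N hN
    have h1 := hkey N (by omega)
    have h2 : ε ≤ ep p (n0 + 1) N := ep_mono (by omega) hN
    have h3 : ∑ n ∈ Finset.range N, f n * (((n + 1 : ℕ) : ℝ) ^ s)⁻¹ * ep p (n + 1) N =
        ∑ u ∈ U, c u * H (p ++ s :: nat u) N := by
      rw [Finset.sum_congr rfl fun (u : List ℕ+) _ => by rw [H_app, Finset.mul_sum], Finset.sum_comm]
      refine Finset.sum_congr rfl fun n _ => ?_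
      rw [show f n = ∑ u ∈ U, c u * H (nat u) n from rfl, Finset.sum_mul, Finset.sum_mul]
      exact Finset.sum_congr rfl fun u _ => by ring
    rw [h3] at h1
    exact (mul_le_mul_of_nonneg_right h2 hδ0.le).trans h1
  have htend : Tendsto (fun N => |∑ u ∈ U, c u * H (p ++ s :: nat u) N|) atTop
      (𝓝 |∑ u ∈ U, c u * val (p ++ s :: nat u)|) :=
    (tendsto_finsetSum _ fun u _ => (tendsto_H _ (adm_app p hp s hs u)).const_mul _).abs
  rw [hsum, abs_zero] at htend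
  have hfin : ε * δ ≤ 0 := ge_of_tendsto htend (by
    filter_upwards [eventually_ge_atTop (n0 + 1 + p.length)] with N hN
    exact hbound N hN)
  have := mul_pos hε0 hδ0
  linarith

/-- relations of bounded height between products -/
theorem products {r : ℕ} (x : Fin r → ℝ) (U : Finset (List ℕ+)) (h : ℕ) : ∃ L : ℕ, ∀ (p : List ℕ),
    (∀ y ∈ p, 2 ≤ y) → L ≤ p.length → ∀ c : Fin r → List ℕ+ → ℤ, (∀ i, ∀ u ∈ U, |c i u| ≤ h) →
    ∑ i, ∑ u ∈ U, (c i u : ℝ) * (x i * val (p ++ nat u)) = 0 → ∀ u ∈ U, ∑ i, (c i u : ℝ) * x i = 0 := by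
  classical
  let co : (Fin r × U → ℤ) → List ℕ+ → ℝ := fun b l => if hl : l ∈ U then ∑ i, (b (i, ⟨l, hl⟩) : ℝ) * x i else 0
  have key : ∀ b : Fin r × U → ℤ, ∃ L : ℕ, (∃ u ∈ U, co b u ≠ 0) → ∀ (p : List ℕ) (_ : ∀ y ∈ p, 2 ≤ y) (s : ℕ)
      (_ : 2 ≤ s), L ≤ p.length → ∑ u ∈ U, co b u * val (p ++ s :: nat u) ≠ 0 := by
    intro b
    by_cases hb : ∃ u ∈ U, co b u ≠ 0
    · obtain ⟨L, hL⟩ := main_real U (co b) hb
      exact ⟨L, fun _ => hL⟩
    · exact ⟨0, fun h' => absurd h' hb⟩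
  choose Lf hLf using key
  refine ⟨(Fintype.piFinset fun _ : Fin r × U => Finset.Icc (-(h : ℤ)) h).sup Lf + 1, fun p hp hL c hc hsum => ?_⟩
  obtain ⟨q, s, rfl⟩ : ∃ q s, p = q ++ [s] := by
    rcases List.eq_nil_or_concat p with rfl | ⟨q, s, rfl⟩
    · simp at hL
    · exact ⟨q, s, List.concat_eq_append⟩
  rw [List.length_append, List.length_singleton] at hL
  have hs : 2 ≤ s := hp s (by simp)
  have hq : ∀ x ∈ q, 2 ≤ x := fun x hx => hp x (by simp [hx])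
  set b : Fin r × U → ℤ := fun y => c y.1 y.2.1 with hb
  have hco : ∀ u ∈ U, co b u = ∑ i, (c i u : ℝ) * x i := by
    intro u hu
    simp only [co, hu, dite_true, hb]
  by_contra hcon
  push Not at hcon
  obtain ⟨u, hu, hne⟩ := hcon
  have h2 : Lf b ≤ (Fintype.piFinset fun _ : Fin r × U => Finset.Icc (-(h : ℤ)) h).sup Lf :=
    Finset.le_sup (f := Lf) (by
      rw [Fintype.mem_piFinset]
      intro y
      rw [Finset.mem_Icc]
      exact abs_le.1 (hc y.1 y.2.1 y.2.2))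
  refine hLf b ⟨u, hu, by rw [hco u hu]; exact hne⟩ q hq s hs (by omega) ?_
  rw [← hsum, Finset.sum_comm]
  refine Finset.sum_congr rfl fun u hu => ?_
  rw [hco u hu, Finset.sum_mul, List.append_assoc, List.singleton_append]
  exact Finset.sum_congr rfl fun i _ => by ring

end Pool.Agent.Q217.TT
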